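import Mathlib
import Pool.Agent.H.MP_7b70e8_gt.B

set_option autoImplicit false

namespace Pool.Agent.Results.MP_bc74b8_gt.CH

open Set Cardinal Pool.Agent.H.MP_9c4169_gt Pool.Agent.H.MP_f722f0_gt Pool.Agent.H.MP_7b70e8_gt

theorem result (ch : continuum = (aleph 1 : Cardinal.{0})) :
    (∃ X : Set ℝ, Split (Om (Op X)) (Ta (Op X)) ∧
      ∀ k ≥ 2, ¬ Split (Om (Op (Fin k → X))) (Ta (Op (Fin k → X)))) ∧
    ∃ X : Set ℝ, Split (Ta (Op X)) (Ta (Op X)) ∧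
      ∀ k ≥ 2, ¬ Split (Ta (Op (Fin k → X))) (Ta (Op (Fin k → X))) := by
  obtain ⟨Z, -, -, h2, -, -, h3⟩ := H.MP_7b70e8_gt.key ch
  obtain ⟨Y, -, h4, -, -, h5⟩ := key' ch
  exact ⟨⟨Z, h2, fun k hk h => h3 (Fin k → Z) (· ⟨0, by omega⟩) (· ⟨1, by omega⟩) (by fun_prop) (by fun_prop)
    (fun x y => ⟨fun i => if i.1 = 0 then x else y, by simp⟩) (splc h)⟩,
    Y, spl (cho h4), fun k hk => (h5 (Fin k → Y) (· ⟨0, by omega⟩) (· ⟨1, by omega⟩) (by fun_prop)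
      (by fun_prop) fun x y => ⟨fun i => if i.1 = 0 then x else y, by simp⟩).1⟩

end Pool.Agent.Results.MP_bc74b8_gt.CH
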